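import Pool.Agent.W187.WP.Stmts3
import Pool.Agent.W120.WP.TRI

/-!
# Coercivity of the rational Weil form on functions orthogonal to low degree polynomials
-/

set_option autoImplicit false

open MeasureTheory Set

namespace Pool.Agent.W638.WP

open Pool.Agent.W187.WP

/-- A bound of the values on `[0, 2]`. -/
def absv : List ℚ → ℚ
  | [] => 0
  | a :: l => |a| + 2 * absv l

theorem abs_ev_le : ∀ (l : List ℚ) (u : ℝ), |u| ≤ 2 → |ev l u| ≤ ((absv l : ℚ) : ℝ)
  | [], u, _ => by simp [absv]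
  | a :: l, u, hu => by
      have h := abs_ev_le l u hu
      simp only [ev_cons, absv]
      push_cast
      calc |(a : ℝ) + u * ev l u| ≤ |(a : ℝ)| + |u * ev l u| := abs_add_le _ _
        _ = |(a : ℝ)| + |u| * |ev l u| := by rw [abs_mul]
        _ ≤ |(a : ℝ)| + 2 * ((absv l : ℚ) : ℝ) := by
            have := mul_le_mul hu h (abs_nonneg _) (by norm_num)
            linarith

theorem rho_le : 2 * absv btl.tail ≤ 76 / 1000 := by
  decide +kernel

theorem harm17 : (3439 / 1000 : ℝ) ≤ ∑ i ∈ Finset.range (16 + 1), (1 : ℝ) / (i + 1) := by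
  norm_num [Finset.sum_range_succ]

/-- Orthogonality to polynomials of low degree. -/
theorem orth (w : ℝ → ℝ) (hw : Continuous w)
    (h0 : ∀ k ≤ 16, ∫ x in (-1 : ℝ)..1, w x * x ^ k = 0) :
    ∀ (P : List ℚ) (m : ℕ), P.length + m ≤ 17 →
      ∫ x in (-1 : ℝ)..1, w x * (x ^ m * ev P x) = 0
  | [], m, _ => by simp
  | a :: P, m, hm => by
      have h1 := orth w hw h0 P (m + 1) (by simp only [List.length_cons] at hm; omega)
      have h2 := h0 m (by simp only [List.length_cons] at hm; omega)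
      have c1 : Continuous (fun x : ℝ => (a : ℝ) * (w x * x ^ m)) := by fun_prop
      have c2 : Continuous (fun x : ℝ => w x * (x ^ (m + 1) * ev P x)) := by
        have := continuous_ev P
        fun_prop
      have e : (fun x : ℝ => w x * (x ^ m * ev (a :: P) x)) =
          fun x : ℝ => (a : ℝ) * (w x * x ^ m) + w x * (x ^ (m + 1) * ev P x) := by
        funext x
        simp only [ev_cons]
        ring
      rw [e, intervalIntegral.integral_add (c1.intervalIntegrable _ _)
        (c2.intervalIntegrable _ _), intervalIntegral.integral_const_mul, h1, h2]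
      ring

theorem orth' (w : ℝ → ℝ) (hw : Continuous w)
    (h0 : ∀ k ≤ 16, ∫ x in (-1 : ℝ)..1, w x * x ^ k = 0) (P : List ℚ) (hP : P.length ≤ 17) :
    ∫ x in (-1 : ℝ)..1, w x * ev P x = 0 := by
  have h := orth w hw h0 P 0 (by omega)
  simpa using h

/-- Half of the square. -/
theorem tri_half (w : ℝ → ℝ) (hw : Continuous w) :
    ∫ x in (-1 : ℝ)..1, (∫ y in x..1, w x * w y) = 1 / 2 * (∫ x in (-1 : ℝ)..1, w x) ^ 2 := by
  have hF : Continuous (Function.uncurry (fun x y : ℝ => w x * w y)) := by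
    have : Continuous (fun p : ℝ × ℝ => w p.1 * w p.2) := by fun_prop
    exact this
  have h1 := Pool.Agent.W120.WP.tri (fun x y : ℝ => w x * w y) hF
  have hc1 : Continuous (fun x => ∫ y in x..1, w x * w y) :=
    Pool.Agent.W120.WP.inner_continuous _ hF
  have hprim : Continuous (fun x : ℝ => ∫ y in (-1 : ℝ)..x, w y) :=
    intervalIntegral.continuous_primitive (fun a b => hw.intervalIntegrable a b) _
  have e2 : ∫ y in (-1 : ℝ)..1, (∫ x in (-1 : ℝ)..y, w x * w y) =
      ∫ x in (-1 : ℝ)..1, w x * (∫ y in (-1 : ℝ)..x, w y) := by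
    congr 1
    funext y
    rw [intervalIntegral.integral_mul_const, mul_comm]
  have e3 : ∫ x in (-1 : ℝ)..1, (∫ y in x..1, w x * w y) =
      ∫ x in (-1 : ℝ)..1, w x * (∫ y in x..1, w y) := by
    congr 1
    funext x
    rw [intervalIntegral.integral_const_mul]
  have hc3 : Continuous (fun x : ℝ => w x * (∫ y in x..1, w y)) := by
    have : (fun x => ∫ y in x..1, w x * w y) = fun x : ℝ => w x * (∫ y in x..1, w y) := by
      funext x
      rw [intervalIntegral.integral_const_mul]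
    rw [← this]; exact hc1
  have hc4 : Continuous (fun x : ℝ => w x * (∫ y in (-1 : ℝ)..x, w y)) := hw.mul hprim
  have e4 : (∫ x in (-1 : ℝ)..1, w x * (∫ y in x..1, w y)) +
      (∫ x in (-1 : ℝ)..1, w x * (∫ y in (-1 : ℝ)..x, w y)) = (∫ x in (-1 : ℝ)..1, w x) ^ 2 := by
    rw [← intervalIntegral.integral_add (hc3.intervalIntegrable _ _)
      (hc4.intervalIntegrable _ _)]
    have : (fun x : ℝ => w x * (∫ y in x..1, w y) + w x * (∫ y in (-1 : ℝ)..x, w y)) =
        fun x : ℝ => w x * (∫ y in (-1 : ℝ)..1, w y) := by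
      funext x
      rw [← mul_add, add_comm, intervalIntegral.integral_add_adjacent_intervals
        (hw.intervalIntegrable _ _) (hw.intervalIntegrable _ _)]
    rw [this, intervalIntegral.integral_mul_const, sq]
  rw [e3] at h1 ⊢
  rw [e2] at h1
  rw [← h1] at e4
  linarith

/-- The triangle integral of `w x ^ 2 + w y ^ 2`. -/
theorem tri_sq (w : ℝ → ℝ) (hw : Continuous w) :
    ∫ x in (-1 : ℝ)..1, (∫ y in x..1, (w x ^ 2 + w y ^ 2)) = 2 * (∫ x in (-1 : ℝ)..1, w x ^ 2) := by
  have hF1 : Continuous (Function.uncurry (fun x _ : ℝ => w x ^ 2)) := by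
    have : Continuous (fun p : ℝ × ℝ => w p.1 ^ 2) := by fun_prop
    exact this
  have hF2 : Continuous (Function.uncurry (fun _ y : ℝ => w y ^ 2)) := by
    have : Continuous (fun p : ℝ × ℝ => w p.2 ^ 2) := by fun_prop
    exact this
  have hc1 := Pool.Agent.W120.WP.inner_continuous _ hF1
  have hc2 := Pool.Agent.W120.WP.inner_continuous _ hF2
  have h2 := Pool.Agent.W120.WP.tri _ hF2
  have e1 : ∫ x in (-1 : ℝ)..1, (∫ y in x..1, (w x ^ 2 + w y ^ 2)) =
      (∫ x in (-1 : ℝ)..1, (∫ _ in x..1, w x ^ 2)) +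
        ∫ x in (-1 : ℝ)..1, (∫ y in x..1, w y ^ 2) := by
    rw [← intervalIntegral.integral_add (hc1.intervalIntegrable _ _) (hc2.intervalIntegrable _ _)]
    congr 1
    funext x
    have c1 : Continuous (fun _ : ℝ => w x ^ 2) := continuous_const
    have c2 : Continuous (fun y : ℝ => w y ^ 2) := hw.pow 2
    rw [intervalIntegral.integral_add (c1.intervalIntegrable _ _) (c2.intervalIntegrable _ _)]
  rw [e1, h2]
  have e2 : ∫ x in (-1 : ℝ)..1, (∫ _ in x..1, w x ^ 2) =
      ∫ x in (-1 : ℝ)..1, (1 - x) * w x ^ 2 := by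
    congr 1
    funext x
    rw [intervalIntegral.integral_const, smul_eq_mul]
  have e3 : ∫ y in (-1 : ℝ)..1, (∫ _ in (-1 : ℝ)..y, w y ^ 2) =
      ∫ x in (-1 : ℝ)..1, (x + 1) * w x ^ 2 := by
    congr 1
    funext x
    rw [intervalIntegral.integral_const, smul_eq_mul, sub_neg_eq_add]
  rw [e2, e3, ← intervalIntegral.integral_add (Continuous.intervalIntegrable (by fun_prop) _ _)
    (Continuous.intervalIntegrable (by fun_prop) _ _), ← intervalIntegral.integral_const_mul]
  congr 1
  funext x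
  ring

theorem kernel_le (w : ℝ → ℝ) (hw : Continuous w)
    (h0 : ∫ x in (-1 : ℝ)..1, w x = 0) :
    ∫ x in (-1 : ℝ)..1, (∫ y in x..1, ev btl (y - x) * (w x * w y)) ≤
      76 / 1000 * (∫ x in (-1 : ℝ)..1, w x ^ 2) := by
  set b0 : ℚ := 1386294361119890619/5000000000000000000 with hb0
  have hbt : ∀ u, ev btl u = (b0 : ℝ) + u * ev btl.tail u := fun u => rfl
  have hct := continuous_ev btl.tail
  have hF1 : Continuous (Function.uncurry (fun x y : ℝ => (b0 : ℝ) * (w x * w y))) := by
    have : Continuous (fun p : ℝ × ℝ => (b0 : ℝ) * (w p.1 * w p.2)) := by fun_prop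
    exact this
  have hF2 : Continuous (Function.uncurry
      (fun x y : ℝ => ((y - x) * ev btl.tail (y - x)) * (w x * w y))) := by
    have : Continuous (fun p : ℝ × ℝ =>
      ((p.2 - p.1) * ev btl.tail (p.2 - p.1)) * (w p.1 * w p.2)) := by fun_prop
    exact this
  have hF3 : Continuous (Function.uncurry
      (fun x y : ℝ => (38 / 1000 : ℝ) * (w x ^ 2 + w y ^ 2))) := by
    have : Continuous (fun p : ℝ × ℝ => (38 / 1000 : ℝ) * (w p.1 ^ 2 + w p.2 ^ 2)) := by fun_prop
    exact this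
  have hc1 := Pool.Agent.W120.WP.inner_continuous _ hF1
  have hc2 := Pool.Agent.W120.WP.inner_continuous _ hF2
  have hc3 := Pool.Agent.W120.WP.inner_continuous _ hF3
  have e1 : ∫ x in (-1 : ℝ)..1, (∫ y in x..1, ev btl (y - x) * (w x * w y)) =
      (∫ x in (-1 : ℝ)..1, (∫ y in x..1, (b0 : ℝ) * (w x * w y))) +
      ∫ x in (-1 : ℝ)..1, (∫ y in x..1, ((y - x) * ev btl.tail (y - x)) * (w x * w y)) := by
    rw [← intervalIntegral.integral_add (hc1.intervalIntegrable _ _) (hc2.intervalIntegrable _ _)]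
    congr 1
    funext x
    rw [← intervalIntegral.integral_add (Continuous.intervalIntegrable (by fun_prop) _ _)
      (Continuous.intervalIntegrable (by fun_prop) _ _)]
    congr 1
    funext y
    rw [hbt]
    ring
  have e2 : ∫ x in (-1 : ℝ)..1, (∫ y in x..1, (b0 : ℝ) * (w x * w y)) = 0 := by
    have : (fun x : ℝ => ∫ y in x..1, (b0 : ℝ) * (w x * w y)) =
        fun x : ℝ => (b0 : ℝ) * ∫ y in x..1, w x * w y := by
      funext x
      rw [intervalIntegral.integral_const_mul]
    rw [this, intervalIntegral.integral_const_mul, tri_half w hw, h0]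
    simp
  have e3 : ∫ x in (-1 : ℝ)..1, (∫ y in x..1, ((y - x) * ev btl.tail (y - x)) * (w x * w y)) ≤
      ∫ x in (-1 : ℝ)..1, (∫ y in x..1, (38 / 1000 : ℝ) * (w x ^ 2 + w y ^ 2)) := by
    refine intervalIntegral.integral_mono_on (by norm_num) (hc2.intervalIntegrable _ _)
      (hc3.intervalIntegrable _ _) fun x hx => ?_
    refine intervalIntegral.integral_mono_on hx.2
      (Continuous.intervalIntegrable (by fun_prop) _ _)
      (Continuous.intervalIntegrable (by fun_prop) _ _) fun y hy => ?_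
    have hu : |y - x| ≤ 2 := by
      rw [abs_le]; constructor <;> linarith [hx.1, hx.2, hy.1, hy.2]
    have h1 := abs_ev_le btl.tail (y - x) hu
    have h2 : ((absv btl.tail : ℚ) : ℝ) ≤ 38 / 1000 := by
      have h3 := rho_le
      have h4 : absv btl.tail ≤ 38 / 1000 := by linarith
      have h5 : ((absv btl.tail : ℚ) : ℝ) ≤ ((38 / 1000 : ℚ) : ℝ) := by exact_mod_cast h4
      push_cast at h5
      exact h5
    have h6 : |(y - x) * ev btl.tail (y - x)| ≤ 76 / 1000 := by
      rw [abs_mul]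
      have := mul_le_mul hu (h1.trans h2) (abs_nonneg _) (by norm_num)
      linarith
    have h7 : ((y - x) * ev btl.tail (y - x)) * (w x * w y) ≤
        |(y - x) * ev btl.tail (y - x)| * |w x * w y| := by
      rw [← abs_mul]; exact le_abs_self _
    have h8 : |w x * w y| ≤ (w x ^ 2 + w y ^ 2) / 2 := by
      rw [abs_le]; constructor <;> nlinarith [sq_nonneg (w x + w y), sq_nonneg (w x - w y)]
    have h9 : |(y - x) * ev btl.tail (y - x)| * |w x * w y| ≤
        76 / 1000 * ((w x ^ 2 + w y ^ 2) / 2) :=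
      mul_le_mul h6 h8 (abs_nonneg _) (by norm_num)
    calc _ ≤ _ := h7
      _ ≤ _ := h9
      _ = _ := by ring
  have e4 : ∫ x in (-1 : ℝ)..1, (∫ y in x..1, (38 / 1000 : ℝ) * (w x ^ 2 + w y ^ 2)) =
      76 / 1000 * (∫ x in (-1 : ℝ)..1, w x ^ 2) := by
    have : (fun x : ℝ => ∫ y in x..1, (38 / 1000 : ℝ) * (w x ^ 2 + w y ^ 2)) =
        fun x : ℝ => (38 / 1000 : ℝ) * ∫ y in x..1, (w x ^ 2 + w y ^ 2) := by
      funext x
      rw [intervalIntegral.integral_const_mul]
    rw [this, intervalIntegral.integral_const_mul, tri_sq w hw]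
    ring
  rw [e1, e2]
  linarith

theorem shift_le (w : ℝ → ℝ) (hw : Continuous w) :
    2 * (∫ x in (-1 : ℝ)..(-1 / 4), w x * w (x + 5 / 4)) ≤ ∫ x in (-1 : ℝ)..1, w x ^ 2 := by
  have e1 : ∫ x in (-1 : ℝ)..(-1 / 4), w (x + 5 / 4) ^ 2 = ∫ x in (1 / 4 : ℝ)..1, w x ^ 2 := by
    rw [intervalIntegral.integral_comp_add_right (fun x => w x ^ 2)]
    norm_num
  have e2 : 2 * (∫ x in (-1 : ℝ)..(-1 / 4), w x * w (x + 5 / 4)) ≤
      (∫ x in (-1 : ℝ)..(-1 / 4), w x ^ 2) + ∫ x in (-1 : ℝ)..(-1 / 4), w (x + 5 / 4) ^ 2 := by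
    rw [← intervalIntegral.integral_const_mul, ← intervalIntegral.integral_add
      (Continuous.intervalIntegrable (by fun_prop) _ _)
      (Continuous.intervalIntegrable (by fun_prop) _ _)]
    refine intervalIntegral.integral_mono_on (by norm_num)
      (Continuous.intervalIntegrable (by fun_prop) _ _)
      (Continuous.intervalIntegrable (by fun_prop) _ _) fun x _ => ?_
    nlinarith [sq_nonneg (w x - w (x + 5 / 4))]
  have e3 : (∫ x in (-1 : ℝ)..(-1 / 4), w x ^ 2) + (∫ x in (-1 / 4 : ℝ)..(1 / 4), w x ^ 2) +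
      (∫ x in (1 / 4 : ℝ)..1, w x ^ 2) = ∫ x in (-1 : ℝ)..1, w x ^ 2 := by
    rw [intervalIntegral.integral_add_adjacent_intervals
      (Continuous.intervalIntegrable (by fun_prop) _ _)
      (Continuous.intervalIntegrable (by fun_prop) _ _),
      intervalIntegral.integral_add_adjacent_intervals
      (Continuous.intervalIntegrable (by fun_prop) _ _)
      (Continuous.intervalIntegrable (by fun_prop) _ _)]
  have e4 : 0 ≤ ∫ x in (-1 / 4 : ℝ)..(1 / 4), w x ^ 2 :=
    intervalIntegral.integral_nonneg (by norm_num) fun x _ => sq_nonneg _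
  rw [e1] at e2
  linarith

theorem Um_nonneg (x : ℝ) : 0 ≤ Um x := by
  unfold Um
  refine Finset.sum_nonneg fun k _ => ?_
  have : (0 : ℝ) ≤ x ^ (2 * (k + 1)) := by
    rw [pow_mul]; positivity
  positivity

theorem r3 : S_TK → S_R3 := by
  intro hTK w hw h0
  have hc : Continuous w := hw.continuous
  set N : ℝ := ∫ x in (-1 : ℝ)..1, w x ^ 2 with hN
  have hN0 : 0 ≤ N := intervalIntegral.integral_nonneg (by norm_num) fun x _ => sq_nonneg _
  have h1 := hTK 16 w hw h0
  have h2 : 0 ≤ ∫ x in (-1 : ℝ)..1, Um x * w x ^ 2 :=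
    intervalIntegral.integral_nonneg (by norm_num) fun x _ =>
      mul_nonneg (Um_nonneg x) (sq_nonneg _)
  have h3 : ∫ x in (-1 : ℝ)..1, w x * ev cpl x = 0 := orth' w hc h0 cpl (by decide)
  have h4 : ∫ x in (-1 : ℝ)..1, w x * ev spl x = 0 := orth' w hc h0 spl (by decide)
  have hI : ∫ x in (-1 : ℝ)..1, w x = 0 := by
    have := h0 0 (by norm_num)
    simpa using this
  have h5 := kernel_le w hc hI
  have h6 := shift_le w hc
  have h7 : (3439 / 1000 : ℝ) * N ≤ 1 / 2 * EE w :=
    (mul_le_mul_of_nonneg_right harm17 hN0).trans h1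
  have hl0 : (0 : ℝ) ≤ (lamQ : ℝ) := by unfold lamQ; norm_num
  have h8 : 2 * (lamQ : ℝ) * (∫ x in (-1 : ℝ)..(-1 / 4), w x * w (x + 5 / 4)) ≤ (lamQ : ℝ) * N := by
    have := mul_le_mul_of_nonneg_left h6 hl0
    linarith
  have hnum : (104 / 100 : ℝ) ≤ 3439 / 1000 - (c2Q : ℝ) - (lamQ : ℝ) - 76 / 1000 := by
    unfold c2Q lamQ; norm_num
  have h9 := mul_le_mul_of_nonneg_right hnum hN0
  unfold Qr
  rw [h3, h4]
  rw [← hN] at h5 h6 ⊢
  nlinarith

end Pool.Agent.W638.WP
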